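import Mathlib

namespace Pool.Agent.Results.MP_d71e54_al.Three

open FirstOrder FirstOrder.Language FirstOrder.Language.Structure Order

universe u

/-- strong amalgamation for the finite structures embeddable in M -/
def StrongAmalg (L : FirstOrder.Language.{0, 0}) (M : Type) [L.Structure M] : Prop :=
  ∀ (A B C : Type) [L.Structure A] [L.Structure B] [L.Structure C] [Finite B] [Finite C]
    (f : A ↪[L] B) (g : A ↪[L] C), Nonempty (B ↪[L] M) → Nonempty (C ↪[L] M) →
    ∃ (f' : B ↪[L] M) (g' : C ↪[L] M), (∀ a, f' (f a) = g' (g a)) ∧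
      ∀ b c, f' b = g' c → ∃ a, f a = b ∧ g a = c

/-- a structurally sharply 2-transitive action by automorphisms -/
def Sharp2 (L : FirstOrder.Language.{0, 0}) (M : Type) [L.Structure M] (G : Type u) [Group G]
    [MulAction G M] : Prop :=
  (∀ (g : G) (n : ℕ) (r : L.Relations n) (x : Fin n → M),
    RelMap r (fun i => g • x i) ↔ RelMap r x) ∧
  ∀ a b : Fin 2 → M, Function.Injective a → Function.Injective b →
    (∀ (n : ℕ) (r : L.Relations n) (t : Fin n → Fin 2), RelMap r (a ∘ t) ↔ RelMap r (b ∘ t)) →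
    ∃! g : G, ∀ i, g • a i = b i

lemma extQ (p : PartialIso ℚ ℚ) : ∃ e : ℚ ≃o ℚ, ∀ z ∈ p.1, e z.1 = z.2 := by
  let to_cofinal : ℚ ⊕ ℚ → Cofinal (PartialIso ℚ ℚ) := fun p ↦
    Sum.recOn p (PartialIso.definedAtLeft ℚ) (PartialIso.definedAtRight ℚ)
  let I : Ideal (PartialIso ℚ ℚ) := idealOfCofinals p to_cofinal
  let F a := PartialIso.funOfIdeal a I (cofinal_meets_idealOfCofinals _ to_cofinal (Sum.inl a))
  let G b := PartialIso.invOfIdeal b I (cofinal_meets_idealOfCofinals _ to_cofinal (Sum.inr b))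
  refine ⟨OrderIso.ofCmpEqCmp (fun a ↦ (F a).val) (fun b ↦ (G b).val) fun a b ↦ ?_, ?_⟩
  · rcases (F a).prop with ⟨f, hf, ha⟩
    rcases (G b).prop with ⟨g, hg, hb⟩
    rcases I.directed _ hf _ hg with ⟨m, _, fm, gm⟩
    exact m.prop (a, _) (fm ha) (_, b) (gm hb)
  · intro z hz
    rcases (F z.1).prop with ⟨f, hf, ha⟩
    rcases I.directed _ hf _ (mem_idealOfCofinals p to_cofinal) with ⟨m, _, fm, gm⟩
    have := m.prop (z.1, _) (fm ha) z (gm hz)
    simp only [cmp_self_eq_eq] at this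
    exact (cmp_eq_eq_iff _ _).1 this.symm

abbrev M := Fin 3 × ℚ

def le' (p q : M) : Prop := p.1 = q.1 ∧ p.2 ≤ q.2

instance str : Language.order.Structure M := @orderStructure M ⟨le'⟩

lemma rel (x : Fin 2 → M) :
    RelMap (L := Language.order) (n := 2) orderRel.le x ↔ le' (x 0) (x 1) := Iff.rfl

def mkEmb {B : Type} [Language.order.Structure B] (β : B ↪[Language.order] M) (h : B → M)
    (hh : ∀ b b', le' (h b) (h b') ↔ le' (β b) (β b')) : B ↪[Language.order] M where
  toFun := h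
  inj' := fun b b' e => by
    have h1 := (hh b b').1 (e ▸ ⟨rfl, le_rfl⟩)
    have h2 := (hh b' b).1 (e ▸ ⟨rfl, le_rfl⟩)
    exact β.injective (Prod.ext h1.1 (le_antisymm h1.2 h2.2))
  map_fun' := fun f => Empty.elim f
  map_rel' := fun r x => by
    cases r
    exact (hh _ _).trans (β.map_rel orderRel.le x)

lemma emb_le {B : Type} [Language.order.Structure B] (β γ : B ↪[Language.order] M) (b b' : B) :
    le' (β b) (β b') ↔ le' (γ b) (γ b') :=
  (β.map_rel orderRel.le ![b, b']).trans (γ.map_rel orderRel.le ![b, b']).symm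

lemma ext_aut {B : Type} [Finite B] (β γ : B → M)
    (h : ∀ b b', le' (β b) (β b') ↔ le' (γ b) (γ b')) :
    ∃ σ : M ≃ M, (∀ p q, le' (σ p) (σ q) ↔ le' p q) ∧ ∀ b, σ (β b) = γ b := by
  classical
  have h1 : ∀ b b', (β b).1 = (β b').1 ↔ (γ b).1 = (γ b').1 := by
    intro b b'
    constructor
    · intro e
      rcases le_total (β b).2 (β b').2 with l | l
      exacts [((h b b').1 ⟨e, l⟩).1, ((h b' b).1 ⟨e.symm, l⟩).1.symm]
    · intro e
      rcases le_total (γ b).2 (γ b').2 with l | l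
      exacts [((h b b').2 ⟨e, l⟩).1, ((h b' b).2 ⟨e.symm, l⟩).1.symm]
  obtain ⟨π, hπ⟩ : ∃ π : Equiv.Perm (Fin 3), ∀ b, π (β b).1 = (γ b).1 := by
    let ι := Set.range (fun b => (β b).1)
    obtain ⟨π, hπ⟩ := Equiv.Perm.exists_extending_pair (f := fun i : ι => i.1)
      (g := fun i : ι => (γ i.2.choose).1) Subtype.val_injective (fun i j e =>
        Subtype.ext (i.2.choose_spec.symm.trans (((h1 _ _).2 e).trans j.2.choose_spec)))
    exact ⟨π, fun b => (hπ ⟨_, b, rfl⟩).trans ((h1 _ _).1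
      (Exists.choose_spec (p := fun c => (β c).1 = (β b).1) ⟨b, rfl⟩))⟩
  have := Fintype.ofFinite B
  have h2 : ∀ i : Fin 3, ∃ e : ℚ ≃o ℚ, ∀ b, (β b).1 = i → e (β b).2 = (γ b).2 := by
    intro i
    obtain ⟨e, he⟩ := extQ ⟨(Finset.univ.filter (fun b => (β b).1 = i)).image
      (fun b => ((β b).2, (γ b).2)), by
        simp only [Finset.mem_image, Finset.mem_filter, Finset.mem_univ, true_and]
        rintro _ ⟨b, hb, rfl⟩ _ ⟨b', hb', rfl⟩
        have e := hb.trans hb'.symm
        have l1 := h b b'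
        have l2 := h b' b
        simp only [le', e, (h1 _ _).1 e, true_and] at l1 l2
        simp only [cmp, cmpUsing, ← not_le, l1, l2]⟩
    exact ⟨e, fun b hb => he (_, _) (Finset.mem_image.2 ⟨b, by simp [hb], rfl⟩)⟩
  choose e he using h2
  refine ⟨Equiv.prodShear π (fun i => (e i).toEquiv), ?_, fun b => Prod.ext (hπ b) (he _ b rfl)⟩
  rintro ⟨i, x⟩ ⟨j, y⟩
  simp only [le', Equiv.prodShear_apply, EmbeddingLike.apply_eq_iff_eq]
  refine and_congr_right ?_
  rintro rfl
  exact (e i).le_iff_le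

lemma homog : Language.order.IsUltrahomogeneous M := by
  intro S hS f
  have : Finite S := hS.finite
  obtain ⟨σ, h1, h2⟩ := ext_aut S.subtype f (emb_le _ _)
  refine ⟨⟨σ, fun f => Empty.elim f, fun r x => ?_⟩, ?_⟩
  · cases r
    exact h1 _ _
  · ext x : 1
    exact (h2 x).symm

lemma sap : StrongAmalg Language.order M := by
  rintro A B C _ _ _ _ _ f g ⟨β⟩ ⟨γ⟩
  classical
  have : Finite A := Finite.of_injective f f.injective
  obtain ⟨σ, h1, h2⟩ := ext_aut (β.comp f) (γ.comp g) (emb_le _ _)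
  have : Countable (ℚ ×ₗ ℚ) := inferInstanceAs (Countable (ℚ × ℚ))
  obtain ⟨e⟩ := embedding_from_countable_to_dense (α := ℚ ×ₗ ℚ) (β := ℚ)
  have key : ∀ (p q : M) (s t : ℚ), (p = q → s = t) →
      (le' (p.1, e (toLex (p.2, s))) (q.1, e (toLex (q.2, t))) ↔ le' p q) := by
    intro p q s t hst
    refine and_congr_right (fun hi => ?_)
    rw [e.le_iff_le, Prod.Lex.toLex_le_toLex]
    refine ⟨fun h => h.elim le_of_lt (fun h => h.1.le), fun h => ?_⟩
    exact h.lt_or_eq.imp id (fun h => ⟨h, (hst (Prod.ext hi h)).le⟩)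
  refine ⟨mkEmb β (fun b => ((σ (β b)).1, e (toLex ((σ (β b)).2, 0))))
      (fun b b' => (key _ _ _ _ (fun _ => rfl)).trans (h1 _ _)),
    mkEmb γ (fun c => ((γ c).1, e (toLex ((γ c).2, if c ∈ Set.range g then 0 else 1))))
      (fun c c' => key _ _ _ _ (fun h => by rw [γ.injective h])), fun a => ?_, fun b c h => ?_⟩
  · have := h2 a
    change σ (β (f a)) = γ (g a) at this
    change (_, _) = (_, _)
    simp [this]
  · obtain ⟨h3, h4⟩ := Prod.mk.inj h
    obtain ⟨h5, h6⟩ := Prod.mk.inj (toLex.injective (e.injective h4))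
    obtain ⟨a, rfl⟩ : c ∈ Set.range g := by
      by_contra hc
      simp [hc] at h6
    exact ⟨a, β.injective (σ.injective ((h2 a).trans (Prod.ext h3 h5).symm)), rfl⟩

theorem result : ∃ (L : FirstOrder.Language.{0, 0}) (M : Type) (_ : L.Structure M),
    L.IsRelational ∧ Countable M ∧ Infinite M ∧ L.IsUltrahomogeneous M ∧ StrongAmalg L M ∧
    ∀ (G : Type u) [Group G] [MulAction G M], ¬ Sharp2 L M G := by
  refine ⟨Language.order, M, str, inferInstance, inferInstance, inferInstance, homog, sap, ?_⟩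
  rintro G _ _ ⟨h1, h2⟩
  have hle : ∀ (g : G) p q, le' (g • p) (g • q) ↔ le' p q := fun g p q =>
    h1 g 2 orderRel.le ![p, q]
  have uniq : ∀ (g : G) (p q : M), p ≠ q → g • p = p → g • q = q → g = 1 := by
    intro g p q hpq hp hq
    have inj : Function.Injective ![p, q] := by
      intro i j
      fin_cases i <;> fin_cases j <;> simp [hpq, hpq.symm]
    exact (h2 _ _ inj inj (fun _ _ _ => Iff.rfl)).unique (by simp [hp, hq]) (by simp)
  obtain ⟨g, hg, -⟩ := h2 ![(0, 0), (1, 0)] ![(1, 0), (0, 0)] (by decide) (by decide) (by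
    intro n r t
    cases r
    rw [rel, rel]
    simp only [Function.comp]
    generalize t 0 = i
    generalize t 1 = j
    fin_cases i <;> fin_cases j <;> simp [le'])
  have g0 : g • ((0, 0) : M) = (1, 0) := hg 0
  have g1 : g • ((1, 0) : M) = (0, 0) := hg 1
  have gg : g * g = 1 := uniq _ (0, 0) (1, 0) (by decide) (by rw [mul_smul, g0, g1])
    (by rw [mul_smul, g1, g0])
  have fix : ∀ x : ℚ, g • ((2, x) : M) = (2, x) := by
    intro x
    have cmp : ∀ p q : M, p.1 = q.1 → le' p q ∨ le' q p := fun p q e =>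
      (le_total p.2 q.2).imp (fun h => ⟨e, h⟩) (fun h => ⟨e.symm, h⟩)
    have h3 : (g • ((2, x) : M)).1 = 2 := by
      have a0 : (g • ((2, x) : M)).1 ≠ (g • ((0, 0) : M)).1 := fun e => by
        have := cmp _ _ e
        rw [hle, hle] at this
        simp [le'] at this
      have a1 : (g • ((2, x) : M)).1 ≠ (g • ((1, 0) : M)).1 := fun e => by
        have := cmp _ _ e
        rw [hle, hle] at this
        simp [le'] at this
      rw [g0] at a0
      rw [g1] at a1
      revert a0 a1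
      generalize (g • ((2, x) : M)).1 = i
      fin_cases i <;> simp
    have h4 := hle g (2, x) (g • (2, x))
    have h5 := hle g (g • (2, x)) (2, x)
    rw [← mul_smul, gg, one_smul] at h4 h5
    rcases cmp _ (2, x) h3 with h | h
    · exact Prod.ext h3 (le_antisymm h.2 (h4.1 h).2)
    · exact Prod.ext h3 (le_antisymm (h4.2 h).2 h.2)
  have := uniq g (2, 0) (2, 1) (by decide) (fix 0) (fix 1)
  rw [this, one_smul] at g0
  revert g0
  decide

end Pool.Agent.Results.MP_d71e54_al.Three
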